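import Mathlib

/-!
# Lexicographic labellings of a finite partially ordered set
-/

set_option autoImplicit false

namespace Pool.Agent.H61C

open Finset

variable {V : Type*} [Fintype V] [DecidableEq V]

/-- the code of a set of labelled elements -/
def code (lam : V → ℕ) (s : Finset V) : ℕ := ∑ y ∈ s, 2 ^ lam y

theorem code_lt {lam : V → ℕ} {s : Finset V} (hinj : ∀ x ∈ s, ∀ y ∈ s, lam x = lam y → x = y)
    {t : ℕ} (h : ∀ y ∈ s, lam y < t) : code lam s < 2 ^ t := by
  unfold code
  have e : ∑ k ∈ s.image lam, 2 ^ k = ∑ y ∈ s, 2 ^ lam y :=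
    sum_image (f := fun k => 2 ^ k) (by
      intro x hx y hy e
      exact hinj x hx y hy e)
  rw [← e]
  apply Nat.geomSum_lt (by norm_num)
  intro k hk
  rw [mem_image] at hk
  obtain ⟨y, hy, rfl⟩ := hk
  exact h y hy

theorem code_mono {lam : V → ℕ} {s t : Finset V} (h : s ⊆ t) : code lam s ≤ code lam t :=
  sum_le_sum_of_subset h

theorem pow_le_code {lam : V → ℕ} {s : Finset V} {y : V} (h : y ∈ s) :
    2 ^ lam y ≤ code lam s :=
  single_le_sum (f := fun y => 2 ^ lam y) (fun _ _ => Nat.zero_le _) h

/-- comparing codes compares the highest labels first -/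
theorem contain {lam : V → ℕ} (hinj : Function.Injective lam) {X Y T : Finset V} (hTY : T ⊆ Y)
    {tau : ℕ} (hT : ∀ t ∈ T, tau ≤ lam t) (hX : ∀ y ∈ X, tau ≤ lam y → y ∈ T)
    (h : code lam Y ≤ code lam X) : T ⊆ X := by
  intro f hf
  by_contra hfX
  have h1 : X ⊆ T.filter (fun y => lam f < lam y) ∪ X.filter (fun y => lam y < lam f) := by
    intro y hy
    have hne : y ≠ f := fun e => hfX (e ▸ hy)
    have hlne : lam y ≠ lam f := fun e => hne (hinj e)
    rw [mem_union, mem_filter, mem_filter]
    rcases lt_or_gt_of_ne hlne with h2 | h2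
    · exact Or.inr ⟨hy, h2⟩
    · exact Or.inl ⟨hX y hy (le_trans (hT f hf) h2.le), h2⟩
  have h2 : code lam X ≤ code lam (T.filter (fun y => lam f < lam y)) +
      code lam (X.filter (fun y => lam y < lam f)) := by
    refine (code_mono h1).trans ?_
    unfold code
    have := sum_union_inter (s₁ := T.filter (fun y => lam f < lam y))
      (s₂ := X.filter (fun y => lam y < lam f)) (f := fun y => 2 ^ lam y)
    omega
  have h3 : code lam (X.filter (fun y => lam y < lam f)) < 2 ^ lam f := by
    apply code_lt
    · intro x _ y _ e
      exact hinj e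
    · intro y hy
      exact (mem_filter.1 hy).2
  have h4 : code lam (T.filter (fun y => lam f < lam y)) + 2 ^ lam f ≤ code lam Y := by
    have h5 : f ∉ T.filter (fun y => lam f < lam y) := by
      rw [mem_filter]
      exact fun h => lt_irrefl _ h.2
    have h6 : insert f (T.filter (fun y => lam f < lam y)) ⊆ Y := by
      intro y hy
      rw [mem_insert] at hy
      rcases hy with rfl | hy
      · exact hTY hf
      · exact hTY (mem_filter.1 hy).1
    have h7 := code_mono (lam := lam) h6
    unfold code at h7 ⊢
    rw [sum_insert h5] at h7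
    omega
  omega

variable [PartialOrder V]

open Classical in
/-- the elements above `x` -/
noncomputable def above (x : V) : Finset V := univ.filter (fun y => x < y)

omit [DecidableEq V] in
theorem mem_above {x y : V} : y ∈ above x ↔ x < y := by
  unfold above
  simp

/-- partial lexicographic labelling of the upper set `A` -/
structure Part (A : Finset V) (lam : V → ℕ) : Prop where
  up : ∀ x ∈ A, ∀ y, x < y → y ∈ A
  lt : ∀ x ∈ A, lam x < A.card
  inj : ∀ x ∈ A, ∀ y ∈ A, lam x = lam y → x = y
  ord : ∀ x ∈ A, ∀ y, x < y → lam y < lam x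
  lex : ∀ q ∈ A, ∀ p, (p ∉ A ∨ lam q < lam p) →
    (∃ y, p < y ∧ (y ∉ A ∨ lam q ≤ lam y)) ∨ code lam (above q) ≤ code lam (above p)

theorem Part.step {A : Finset V} {lam : V → ℕ} (h : Part A lam) (hA : A ≠ univ) :
    ∃ x lam', x ∉ A ∧ Part (insert x A) lam' := by
  classical
  -- candidates
  set C := univ.filter (fun x => x ∉ A ∧ ∀ y, x < y → y ∈ A) with hC
  have hCne : C.Nonempty := by
    have h1 : (univ \ A).Nonempty := by
      rw [sdiff_nonempty]
      intro h2
      exact hA (univ_subset_iff.1 h2)
    obtain ⟨x, hx⟩ := (univ \ A).exists_maximal h1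
    refine ⟨x, ?_⟩
    rw [hC, mem_filter]
    refine ⟨mem_univ _, (mem_sdiff.1 hx.1).2, ?_⟩
    intro y hy
    by_contra hyA
    have := hx.2 (y := y) (mem_sdiff.2 ⟨mem_univ _, hyA⟩) hy.le
    exact absurd hy (not_lt_of_ge this)
  obtain ⟨x, hxC, hmin⟩ := exists_min_image C (fun x => code lam (above x)) hCne
  rw [hC, mem_filter] at hxC
  obtain ⟨-, hxA, hxup⟩ := hxC
  have hupd : ∀ y ∈ A, Function.update lam x A.card y = lam y := by
    intro y hy
    rw [Function.update_of_ne]
    rintro rfl
    exact hxA hy
  have hupx : Function.update lam x A.card x = A.card := Function.update_self _ _ _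
  have hcode : ∀ p, (∀ y, p < y → y ∈ A) →
      code (Function.update lam x A.card) (above p) = code lam (above p) := by
    intro p hp
    unfold code
    apply sum_congr rfl
    intro y hy
    rw [mem_above] at hy
    rw [hupd y (hp y hy)]
  refine ⟨x, Function.update lam x A.card, hxA, ?_, ?_, ?_, ?_, ?_⟩
  · intro y hy z hz
    rw [mem_insert] at hy ⊢
    rcases hy with rfl | hy
    · exact Or.inr (hxup z hz)
    · exact Or.inr (h.up y hy z hz)
  · intro y hy
    rw [card_insert_of_notMem hxA]
    rw [mem_insert] at hy
    rcases hy with rfl | hy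
    · rw [hupx]
      omega
    · rw [hupd y hy]
      have := h.lt y hy
      omega
  · intro y hy z hz e
    rw [mem_insert] at hy hz
    rcases hy with rfl | hy <;> rcases hz with rfl | hz
    · rfl
    · rw [hupx, hupd z hz] at e
      have := h.lt z hz
      omega
    · rw [hupx, hupd y hy] at e
      have := h.lt y hy
      omega
    · rw [hupd y hy, hupd z hz] at e
      exact h.inj y hy z hz e
  · intro y hy z hz
    rw [mem_insert] at hy
    rcases hy with rfl | hy
    · rw [hupx, hupd z (hxup z hz)]
      exact h.lt z (hxup z hz)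
    · rw [hupd y hy, hupd z (h.up y hy z hz)]
      exact h.ord y hy z hz
  · intro q hq p hp
    by_cases hex : ∃ y, p < y ∧ y ∉ A
    · left
      obtain ⟨y, hpy, hyA⟩ := hex
      refine ⟨y, hpy, ?_⟩
      by_cases hyx : y = x
      · right
        subst hyx
        rw [hupx]
        rw [mem_insert] at hq
        rcases hq with rfl | hq
        · rw [hupx]
        · rw [hupd q hq]
          exact (h.lt q hq).le
      · left
        rw [mem_insert]
        push Not
        exact ⟨hyx, hyA⟩
    · push Not at hex
      rw [mem_insert] at hq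
      rcases hq with rfl | hq
      · right
        have hpA : p ∉ A := by
          intro hpA
          rcases hp with hp | hp
          · exact hp (mem_insert_of_mem hpA)
          · rw [hupx, hupd p hpA] at hp
            have := h.lt p hpA
            omega
        rw [hcode _ hxup, hcode _ hex]
        apply hmin
        rw [hC, mem_filter]
        exact ⟨mem_univ _, hpA, hex⟩
      · have hp' : p ∉ A ∨ lam q < lam p := by
          by_cases hpA : p ∈ A
          · right
            rcases hp with hp | hp
            · exact absurd (mem_insert_of_mem hpA) hp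
            · rwa [hupd q hq, hupd p hpA] at hp
          · exact Or.inl hpA
        rcases h.lex q hq p hp' with ⟨y, hpy, hy⟩ | hle
        · left
          refine ⟨y, hpy, Or.inr ?_⟩
          rw [hupd q hq, hupd y (hex y hpy)]
          rcases hy with hy | hy
          · exact absurd (hex y hpy) hy
          · exact hy
        · right
          rw [hcode _ (h.up q hq), hcode _ hex]
          exact hle

theorem exists_part (n : ℕ) (hn : n ≤ Fintype.card V) :
    ∃ (A : Finset V) (lam : V → ℕ), A.card = n ∧ Part A lam := by
  induction n with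
  | zero =>
    refine ⟨∅, fun _ => 0, card_empty, ?_, ?_, ?_, ?_, ?_⟩
    all_goals
      intro x hx
      exact absurd hx (notMem_empty _)
  | succ n ih =>
    obtain ⟨A, lam, hc, hp⟩ := ih (by omega)
    have hA : A ≠ univ := by
      rintro rfl
      rw [card_univ] at hc
      omega
    obtain ⟨x, lam', hx, hp'⟩ := hp.step hA
    exact ⟨insert x A, lam', by rw [card_insert_of_notMem hx, hc], hp'⟩

/-- lexicographic labelling -/
structure Lab (lam : V → ℕ) : Prop where
  inj : Function.Injective lam
  ord : ∀ x y, x < y → lam y < lam x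
  lex : ∀ u x, lam u ≤ lam x → code lam (above u) ≤ code lam (above x)

theorem exists_lab : ∃ lam : V → ℕ, Lab lam := by
  obtain ⟨A, lam, hc, hp⟩ := exists_part (V := V) (Fintype.card V) le_rfl
  have hA : A = univ := (card_eq_iff_eq_univ A).1 hc
  subst hA
  have hinj : Function.Injective lam := fun x y e => hp.inj x (mem_univ _) y (mem_univ _) e
  refine ⟨lam, hinj, fun x y h => hp.ord x (mem_univ _) y h, ?_⟩
  intro u x hux
  rcases hux.lt_or_eq with h | h
  · rcases hp.lex u (mem_univ _) x (Or.inr h) with ⟨y, hxy, hy⟩ | hle
    · rcases hy with hy | hy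
      · exact absurd (mem_univ y) hy
      · have h1 : code lam (above u) < 2 ^ lam u := by
          apply code_lt
          · intro a _ b _ e
            exact hinj e
          · intro z hz
            rw [mem_above] at hz
            exact hp.ord u (mem_univ _) z hz
        have h2 : 2 ^ lam y ≤ code lam (above x) := pow_le_code (mem_above.2 hxy)
        have h3 : 2 ^ lam u ≤ 2 ^ lam y := Nat.pow_le_pow_right (by norm_num) hy
        omega
    · exact hle
  · rw [hinj h]

end Pool.Agent.H61C
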