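import Mathlib
import Pool.Agent.H61B.HamPath
import Pool.Agent.H61C.Lab

/-!
# Greedy paths in incomparability graphs
-/

set_option autoImplicit false

namespace Pool.Agent.H61C

open Finset SimpleGraph Pool.Agent.H61B

variable {V : Type*} [Fintype V] [DecidableEq V] [PartialOrder V]

/-- a greedy path -/
structure Gr (G : SimpleGraph V) (lam : V → ℕ) (m : ℕ) (p : ℕ → V) : Prop where
  pa : Pa G m p
  down : ∀ i, i < m → ∀ y, y < p i → ∃ k, k < i ∧ p k = y
  best : ∀ i, i + 1 < m → ∀ y, (∀ k, k ≤ i → p k ≠ y) → (∀ z, z < y → ∃ k, k ≤ i ∧ p k = z) →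
    G.Adj (p i) y → lam y ≤ lam (p (i + 1))
  first : ∀ y, lam y ≤ lam (p 0)

/-- the separated classes of an initial segment of a greedy path -/
theorem chain {G : SimpleGraph V} (hco : ∀ x y, ¬ G.Adj x y → x ≤ y ∨ y ≤ x)
    (hco' : ∀ x y, x < y → ¬ G.Adj x y)
    {lam : V → ℕ} (hl : Lab lam) {m : ℕ} {p : ℕ → V} (hg : Gr G lam m p) :
    ∀ j, j < m → ∀ (T : Finset V) (tau : ℕ), (∀ t ∈ T, p j < t) → (∀ t ∈ T, tau ≤ lam t) →
      (∀ y, (∀ k, k ≤ j → p k ≠ y) → tau ≤ lam y → y ∈ T) →
      (∀ y, (∀ k, k ≤ j → p k ≠ y) → lam y < lam (p j)) →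
      ∃ (S : Finset V) (f : V → ℕ),
        (∀ s ∈ S, ∃ k, k ≤ j ∧ p k = s) ∧
        (∀ c, c ≤ S.card → ∃ k, k ≤ j ∧ p k ∉ S ∧ f (p k) = c) ∧
        (∀ k, k ≤ j → p k ∉ S → f (p k) ≤ S.card) ∧
        (∀ k l, k ≤ j → l ≤ j → p k ∉ S → p l ∉ S → G.Adj (p k) (p l) → f (p k) = f (p l)) ∧
        (∀ k, k ≤ j → p k ∉ S → ∀ t ∈ T, p k < t) := by
  intro j
  induction j using Nat.strong_induction_on with
  | _ j ih =>
  intro hjm T tau h1 h2 h3 h4
  have hinj : ∀ a b, a < m → b < m → p a = p b → a = b := hg.pa.inj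
  have hex : ∃ lo, ∀ k, lo ≤ k → k ≤ j → lam (p j) ≤ lam (p k) := by
    refine ⟨j, fun k hk1 hk2 => ?_⟩
    have : k = j := by omega
    rw [this]
  obtain ⟨lo, hlo, hmin⟩ : ∃ lo, (∀ k, lo ≤ k → k ≤ j → lam (p j) ≤ lam (p k)) ∧
      ∀ l, l < lo → ¬ ∀ k, l ≤ k → k ≤ j → lam (p j) ≤ lam (p k) :=
    ⟨Nat.find hex, Nat.find_spec hex, fun l hl => Nat.find_min hex hl⟩
  have hloj : lo ≤ j := by
    by_contra hcon
    apply hmin j (by omega)
    intro k hk1 hk2
    have : k = j := by omega
    rw [this]
  -- all of the last block is below T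
  have stepA : ∀ d k, lo ≤ k → k ≤ j → j - k = d → ∀ t ∈ T, p k < t := by
    intro d
    induction d using Nat.strong_induction_on with
    | _ d ihd =>
    intro k hk1 hk2 hd t ht
    by_cases hex2 : ∃ l, k < l ∧ l ≤ j ∧ p k < p l
    · obtain ⟨l, hl1, hl2, hl3⟩ := hex2
      exact hl3.trans (ihd (j - l) (by omega) l (by omega) hl2 rfl t ht)
    · have hsub : T ⊆ above (p k) := by
        apply contain (lam := lam) hl.inj (Y := above (p j)) (tau := tau)
        · intro s hs
          rw [mem_above]
          exact h1 s hs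
        · exact h2
        · intro y hy hty
          rw [mem_above] at hy
          apply h3 y ?_ hty
          intro i hi e
          rw [← e] at hy
          obtain ⟨k', hk', e'⟩ := hg.down i (by omega) _ hy
          have := hinj _ _ (by omega) (by omega) e'
          subst this
          exact hex2 ⟨i, hk', hi, hy⟩
        · exact hl.lex _ _ (hlo k hk1 hk2)
      exact mem_above.1 (hsub ht)
  by_cases hlo0 : lo = 0
  · refine ⟨∅, fun _ => 0, ?_, ?_, ?_, ?_, ?_⟩
    · intro s hs
      exact absurd hs (notMem_empty _)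
    · intro c hc
      rw [card_empty] at hc
      exact ⟨j, le_rfl, notMem_empty _, (Nat.le_zero.1 hc).symm⟩
    · intro k _ _
      exact Nat.zero_le _
    · intro k l _ _ _ _ _
      rfl
    · intro k hk _ t ht
      exact stepA _ k (by omega) hk rfl t ht
  · have hlt : lam (p (lo - 1)) < lam (p j) := by
      have := hmin (lo - 1) (by omega)
      push Not at this
      obtain ⟨k, hk1, hk2, hk3⟩ := this
      have e : k = lo - 1 := by
        by_contra hne
        have := hlo k (by omega) hk2
        omega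
      rw [← e]
      exact hk3
    have hlo2 : 2 ≤ lo := by
      by_contra hcon
      have e : lo - 1 = 0 := by omega
      rw [e] at hlt
      have := hg.first (p j)
      omega
    -- the vertex before the cut is below the block
    have stepC : ∀ k, lo ≤ k → k ≤ j → p (lo - 2) < p k := by
      intro k
      induction k using Nat.strong_induction_on with
      | _ k ihk =>
      intro hk1 hk2
      have hk3 := hlo k hk1 hk2
      by_cases hex2 : ∃ z, z < p k ∧ ∀ l, l ≤ lo - 2 → p l ≠ z
      · obtain ⟨z, hz, hz2⟩ := hex2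
        obtain ⟨l, hl1, hl2⟩ := hg.down k (by omega) z hz
        by_cases hl3 : l ≤ lo - 2
        · exact absurd hl2 (hz2 l hl3)
        · by_cases hl4 : l = lo - 1
          · subst hl4
            rw [← hl2] at hz
            have := hl.ord _ _ hz
            omega
          · have := ihk l hl1 (by omega) (by omega)
            rw [hl2] at this
            exact this.trans hz
      · push Not at hex2
        have hne : ∀ i, i ≤ lo - 2 → p i ≠ p k := by
          intro i hi e
          have := hinj _ _ (by omega) (by omega) e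
          omega
        have hna : ¬ G.Adj (p (lo - 2)) (p k) := by
          intro ha
          have := hg.best (lo - 2) (by omega) (p k) hne hex2 ha
          have e : lo - 2 + 1 = lo - 1 := by omega
          rw [e] at this
          omega
        rcases hco _ _ hna with h5 | h5
        · exact lt_of_le_of_ne h5 (hne _ le_rfl)
        · have h6 : p k < p (lo - 2) := lt_of_le_of_ne h5 (hne _ le_rfl).symm
          obtain ⟨k', hk', e'⟩ := hg.down (lo - 2) (by omega) _ h6
          have := hinj _ _ (by omega) (by omega) e'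
          omega
    set T' := (Icc lo j).image p with hT'
    have memT' : ∀ y, y ∈ T' ↔ ∃ k, (lo ≤ k ∧ k ≤ j) ∧ p k = y := by
      intro y
      rw [hT', mem_image]
      simp only [mem_Icc]
    have hjlo : lam (p j) < lam (p (lo - 2)) := hl.ord _ _ (stepC j hloj le_rfl)
    obtain ⟨S', f', i1, i2, i3, i4, i5⟩ := ih (lo - 2) (by omega) (by omega) T' (lam (p j))
      (by
        intro t ht
        obtain ⟨k, hk, rfl⟩ := (memT' t).1 ht
        exact stepC k hk.1 hk.2)
      (by
        intro t ht
        obtain ⟨k, hk, rfl⟩ := (memT' t).1 ht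
        exact hlo k hk.1 hk.2)
      (by
        intro y hy hly
        by_cases hyk : ∃ k, k ≤ j ∧ p k = y
        · obtain ⟨k, hk, rfl⟩ := hyk
          rw [memT']
          have hk1 : ¬ k ≤ lo - 2 := fun h => hy k h rfl
          have hk2 : k ≠ lo - 1 := by
            rintro rfl
            omega
          exact ⟨k, ⟨by omega, hk⟩, rfl⟩
        · push Not at hyk
          have := h4 y hyk
          omega)
      (by
        intro y hy
        by_cases hyk : ∃ k, k ≤ j ∧ p k = y
        · obtain ⟨k, hk, rfl⟩ := hyk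
          have hk1 : ¬ k ≤ lo - 2 := fun h => hy k h rfl
          by_cases hk2 : k = lo - 1
          · subst hk2
            omega
          · exact hl.ord _ _ (stepC k (by omega) hk)
        · push Not at hyk
          have := h4 y hyk
          omega)
    have hnS' : ∀ k, k < m → lo - 2 < k → p k ∉ S' := by
      intro k hk1 hk2 hk3
      obtain ⟨l, hl1, hl2⟩ := i1 _ hk3
      have := hinj _ _ (by omega) (by omega) hl2
      omega
    have hc1 : p (lo - 1) ∉ S' := hnS' _ (by omega) (by omega)
    have hcard : (insert (p (lo - 1)) S').card = S'.card + 1 := card_insert_of_notMem hc1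
    have hnT : ∀ k, k ≤ lo - 2 → p k ∉ T' := by
      intro k hk hkT
      obtain ⟨l, hl1, hl2⟩ := (memT' _).1 hkT
      have := hinj _ _ (by omega) (by omega) hl2
      omega
    have hyT : ∀ k, lo ≤ k → k ≤ j → p k ∈ T' := fun k hk1 hk2 => (memT' _).2 ⟨k, ⟨hk1, hk2⟩, rfl⟩
    have hsplit : ∀ k, k ≤ j → p k ∉ insert (p (lo - 1)) S' →
        (lo ≤ k) ∨ (k ≤ lo - 2 ∧ p k ∉ S') := by
      intro k hk hk2
      rw [mem_insert] at hk2
      push Not at hk2
      by_cases hk3 : lo ≤ k
      · exact Or.inl hk3
      · right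
        have : k ≠ lo - 1 := by
          rintro rfl
          exact hk2.1 rfl
        exact ⟨by omega, hk2.2⟩
    refine ⟨insert (p (lo - 1)) S', fun x => if x ∈ T' then S'.card + 1 else f' x,
      ?_, ?_, ?_, ?_, ?_⟩
    · intro s hs
      rw [mem_insert] at hs
      rcases hs with rfl | hs
      · exact ⟨lo - 1, by omega, rfl⟩
      · obtain ⟨k, hk, e⟩ := i1 s hs
        exact ⟨k, by omega, e⟩
    · intro c hc
      rw [hcard] at hc
      by_cases hc2 : c = S'.card + 1
      · refine ⟨j, le_rfl, ?_, ?_⟩
        · rw [mem_insert]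
          push Not
          refine ⟨?_, hnS' j hjm (by omega)⟩
          intro e
          rw [e] at hlt
          exact lt_irrefl _ hlt
        · simp only [if_pos (hyT j hloj le_rfl)]
          exact hc2.symm
      · obtain ⟨k, hk1, hk2, hk3⟩ := i2 c (by omega)
        refine ⟨k, by omega, ?_, ?_⟩
        · rw [mem_insert]
          push Not
          refine ⟨?_, hk2⟩
          intro e
          have := hinj _ _ (by omega) (by omega) e
          omega
        · simp only [if_neg (hnT k hk1)]
          exact hk3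
    · intro k hk hk2
      rw [hcard]
      rcases hsplit k hk hk2 with h5 | ⟨h5, h6⟩
      · simp only [if_pos (hyT k h5 hk)]
        exact le_rfl
      · simp only [if_neg (hnT k h5)]
        exact (i3 k h5 h6).trans (Nat.le_succ _)
    · intro k l hk hl' hk2 hl2 ha
      rcases hsplit k hk hk2 with h5 | ⟨h5, h6⟩ <;> rcases hsplit l hl' hl2 with h7 | ⟨h7, h8⟩
      · simp only [if_pos (hyT k h5 hk), if_pos (hyT l h7 hl')]
      · exact absurd ha.symm (hco' _ _ (i5 l h7 h8 _ (hyT k h5 hk)))
      · exact absurd ha (hco' _ _ (i5 k h5 h6 _ (hyT l h7 hl')))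
      · simp only [if_neg (hnT k h5), if_neg (hnT l h7)]
        exact i4 k l h5 h7 h6 h8 ha
    · intro k hk hk2 t ht
      rcases hsplit k hk hk2 with h5 | ⟨h5, h6⟩
      · exact stepA _ k h5 hk rfl t ht
      · exact (i5 k h5 h6 _ (hyT j hloj le_rfl)).trans (h1 t ht)

omit [Fintype V] [DecidableEq V] [PartialOrder V] in
/-- counting components by an invariant -/
theorem comp_ge [Finite V] (G : SimpleGraph V) (S : Finset V) (g : V → ℕ) (N : ℕ)
    (hs : ∀ c, c < N → ∃ x, x ∉ S ∧ g x = c)
    (ha : ∀ x y, x ∉ S → y ∉ S → G.Adj x y → g x = g y) :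
    N ≤ Nat.card (G.induce ((S : Set V)ᶜ)).ConnectedComponent := by
  classical
  have : Finite (G.induce ((S : Set V)ᶜ)).ConnectedComponent := by
    unfold ConnectedComponent
    infer_instance
  have key : ∀ (a b : ((S : Set V)ᶜ : Set V)), (G.induce ((S : Set V)ᶜ)).Reachable a b →
      g a = g b := by
    rintro a b ⟨w⟩
    induction w with
    | nil => rfl
    | @cons u v w h _ ih =>
      rw [← ih]
      exact ha _ _ (fun hu => u.2 (mem_coe.2 hu)) (fun hv => v.2 (mem_coe.2 hv)) h
  choose x hx using hs
  have hi : Function.Injective (fun c : Fin N =>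
      (G.induce ((S : Set V)ᶜ)).connectedComponentMk
        ⟨x c.1 c.2, fun hu => (hx c.1 c.2).1 (mem_coe.1 hu)⟩) := by
    intro a b e
    have h1 := key _ _ (ConnectedComponent.exact e)
    simp only [(hx a.1 a.2).2, (hx b.1 b.2).2] at h1
    exact Fin.ext h1
  have := Nat.card_le_card_of_injective _ hi
  simpa using this

/-- a graph with a greedy path that is stuck has a set S with at least |S| + 2 components -/
theorem stuck {G : SimpleGraph V} (hco : ∀ x y, ¬ G.Adj x y → x ≤ y ∨ y ≤ x)
    (hco' : ∀ x y, x < y → ¬ G.Adj x y)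
    {lam : V → ℕ} (hl : Lab lam) {m : ℕ} {p : ℕ → V} (hg : Gr G lam (m + 1) p)
    (hU : ∃ y, ∀ k, k ≤ m → p k ≠ y)
    (hno : ∀ y, (∀ k, k ≤ m → p k ≠ y) → (∀ z, z < y → ∃ k, k ≤ m ∧ p k = z) →
      ¬ G.Adj (p m) y) :
    ∃ S : Finset V, S.card + 2 ≤ Nat.card (G.induce ((S : Set V)ᶜ)).ConnectedComponent := by
  classical
  have hinj : ∀ a b, a < m + 1 → b < m + 1 → p a = p b → a = b := hg.pa.inj
  set U := univ.filter (fun y => ∀ k, k ≤ m → p k ≠ y) with hUd
  have memU : ∀ y, y ∈ U ↔ ∀ k, k ≤ m → p k ≠ y := by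
    intro y
    rw [hUd, mem_filter]
    simp
  have hlt : ∀ y ∈ U, p m < y := by
    intro y hy
    obtain ⟨x, hxy, hx⟩ := U.exists_le_minimal hy
    have hxU := (memU x).1 hx.1
    have h1 : ∀ z, z < x → ∃ k, k ≤ m ∧ p k = z := by
      intro z hz
      by_contra hcon
      push Not at hcon
      have := hx.2 (y := z) ((memU z).2 hcon) hz.le
      exact absurd hz (not_lt_of_ge this)
    have h2 : p m < x := by
      rcases hco _ _ (hno x hxU h1) with h3 | h3
      · exact lt_of_le_of_ne h3 (hxU m le_rfl)
      · have h4 : x < p m := lt_of_le_of_ne h3 (hxU m le_rfl).symm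
        obtain ⟨k, hk, e⟩ := hg.down m (by omega) _ h4
        exact absurd e (hxU k (by omega))
    exact lt_of_lt_of_le h2 hxy
  obtain ⟨S, f, j1, j2, j3, j4, j5⟩ := chain hco hco' hl hg m (by omega) U 0 hlt
    (fun _ _ => Nat.zero_le _) (fun y hy _ => (memU y).2 hy)
    (fun y hy => hl.ord _ _ (hlt y ((memU y).2 hy)))
  refine ⟨S, ?_⟩
  have hpU : ∀ k, k ≤ m → p k ∉ U := fun k hk h => (memU _).1 h k hk rfl
  have hmem : ∀ y, y ∉ U → ∃ k, k ≤ m ∧ p k = y := by
    intro y hy
    rw [memU] at hy
    push Not at hy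
    exact hy
  apply comp_ge G S (fun x => if x ∈ U then S.card + 1 else f x)
  · intro c hc
    by_cases h1 : c = S.card + 1
    · obtain ⟨y, hy⟩ := hU
      refine ⟨y, ?_, ?_⟩
      · intro hyS
        obtain ⟨k, hk, e⟩ := j1 y hyS
        exact hy k hk e
      · simp only [if_pos ((memU y).2 hy)]
        exact h1.symm
    · obtain ⟨k, hk1, hk2, hk3⟩ := j2 c (by omega)
      refine ⟨p k, hk2, ?_⟩
      simp only [if_neg (hpU k hk1)]
      exact hk3
  · intro x y hx hy ha
    by_cases hxU : x ∈ U <;> by_cases hyU : y ∈ U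
    · simp only [if_pos hxU, if_pos hyU]
    · obtain ⟨k, hk, rfl⟩ := hmem y hyU
      exact absurd ha.symm (hco' _ _ (j5 k hk hy x hxU))
    · obtain ⟨k, hk, rfl⟩ := hmem x hxU
      exact absurd ha (hco' _ _ (j5 k hk hx y hyU))
    · simp only [if_neg hxU, if_neg hyU]
      obtain ⟨k, hk, rfl⟩ := hmem x hxU
      obtain ⟨l, hl', rfl⟩ := hmem y hyU
      exact j4 k l hk hl' hx hy ha

/-- a cocomparability graph in which removing S leaves at most |S| + 1 components for every S
has a path through all vertices -/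
theorem greedy_all [Nonempty V] {G : SimpleGraph V} (hco : ∀ x y, ¬ G.Adj x y → x ≤ y ∨ y ≤ x)
    (hco' : ∀ x y, x < y → ¬ G.Adj x y)
    (hsc : ∀ S : Finset V, Nat.card (G.induce ((S : Set V)ᶜ)).ConnectedComponent ≤ S.card + 1)
    {lam : V → ℕ} (hl : Lab lam) :
    ∀ m, m + 1 ≤ Fintype.card V → ∃ p, Gr G lam (m + 1) p := by
  classical
  intro m
  induction m with
  | zero =>
    intro _
    obtain ⟨x, -, hx⟩ := exists_max_image (univ : Finset V) lam univ_nonempty
    refine ⟨fun _ => x, ⟨?_, ?_⟩, ?_, ?_, ?_⟩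
    · intro i hi
      omega
    · intro i j hi hj _
      omega
    · intro i hi y hy
      have h1 := hl.ord _ _ hy
      have h2 := hx y (mem_univ _)
      omega
    · intro i hi
      omega
    · intro y
      exact hx y (mem_univ _)
  | succ m ih =>
    intro hm
    obtain ⟨p, hg⟩ := ih (by omega)
    -- candidates
    set C := univ.filter (fun y => (∀ k, k ≤ m → p k ≠ y) ∧
      (∀ z, z < y → ∃ k, k ≤ m ∧ p k = z) ∧ G.Adj (p m) y) with hC
    have memC : ∀ y, y ∈ C ↔ (∀ k, k ≤ m → p k ≠ y) ∧
      (∀ z, z < y → ∃ k, k ≤ m ∧ p k = z) ∧ G.Adj (p m) y := by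
      intro y
      rw [hC, mem_filter]
      simp
    by_cases hne : C.Nonempty
    · obtain ⟨w, hwC, hw⟩ := exists_max_image C lam hne
      obtain ⟨w1, w2, w3⟩ := (memC w).1 hwC
      obtain ⟨q, e1, e2⟩ : ∃ q : ℕ → V, (∀ i, i ≤ m → q i = p i) ∧ q (m + 1) = w :=
        ⟨fun i => if i ≤ m then p i else w, fun i hi => if_pos hi, if_neg (by omega)⟩
      refine ⟨q, ⟨?_, ?_⟩, ?_, ?_, ?_⟩
      · intro i hi
        by_cases h1 : i + 1 ≤ m
        · rw [e1 i (by omega), e1 (i + 1) h1]
          exact hg.pa.adj i (by omega)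
        · have e3 : i = m := by omega
          subst e3
          rw [e1 i le_rfl, e2]
          exact w3
      · intro i j hi hj e
        by_cases h1 : i ≤ m <;> by_cases h2 : j ≤ m
        · rw [e1 i h1, e1 j h2] at e
          exact hg.pa.inj i j (by omega) (by omega) e
        · have e3 : j = m + 1 := by omega
          subst e3
          rw [e1 i h1, e2] at e
          exact absurd e (w1 i h1)
        · have e3 : i = m + 1 := by omega
          subst e3
          rw [e1 j h2, e2] at e
          exact absurd e.symm (w1 j h2)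
        · omega
      · intro i hi y hy
        by_cases h1 : i ≤ m
        · rw [e1 i h1] at hy
          obtain ⟨k, hk, e⟩ := hg.down i (by omega) y hy
          exact ⟨k, hk, by rw [e1 k (by omega)]; exact e⟩
        · have e3 : i = m + 1 := by omega
          subst e3
          rw [e2] at hy
          obtain ⟨k, hk, e⟩ := w2 y hy
          exact ⟨k, by omega, by rw [e1 k hk]; exact e⟩
      · intro i hi y hy1 hy2 hy3
        have hy1' : ∀ k, k ≤ i → p k ≠ y := by
          intro k hk
          have := hy1 k hk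
          rwa [e1 k (by omega)] at this
        have hy2' : ∀ z, z < y → ∃ k, k ≤ i ∧ p k = z := by
          intro z hz
          obtain ⟨k, hk, e⟩ := hy2 z hz
          rw [e1 k (by omega)] at e
          exact ⟨k, hk, e⟩
        rw [e1 i (by omega)] at hy3
        by_cases h1 : i + 1 ≤ m
        · rw [e1 (i + 1) h1]
          exact hg.best i (by omega) y hy1' hy2' hy3
        · have e3 : i = m := by omega
          subst e3
          rw [e2]
          exact hw y ((memC y).2 ⟨hy1', hy2', hy3⟩)
      · intro y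
        rw [e1 0 (Nat.zero_le _)]
        exact hg.first y
    · exfalso
      have hU : ∃ y, ∀ k, k ≤ m → p k ≠ y := by
        by_contra hcon
        push Not at hcon
        have h1 : (univ : Finset V) ⊆ (range (m + 1)).image p := by
          intro y _
          obtain ⟨k, hk, e⟩ := hcon y
          rw [mem_image]
          exact ⟨k, mem_range.2 (by omega), e⟩
        have h2 := (card_le_card h1).trans card_image_le
        rw [card_univ, card_range] at h2
        omega
      obtain ⟨S, hS⟩ := stuck hco hco' hl hg hU (by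
        intro y hy1 hy2 hy3
        exact hne ⟨y, (memC y).2 ⟨hy1, hy2, hy3⟩⟩)
      have := hsc S
      omega

end Pool.Agent.H61C
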